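import Mathlib

/-!
Kernels and kernel-perfect digraphs.
-/

namespace Pool.Agent.H38.Kp

/-- `K` is a kernel of the subdigraph induced on `H`: independent and absorbing. -/
def IsKernel {V : Type} (A : V → V → Prop) (H K : Set V) : Prop :=
  K ⊆ H ∧ (∀ u ∈ K, ∀ v ∈ K, ¬ A u v) ∧ ∀ v ∈ H, v ∉ K → ∃ w ∈ K, A v w

/-- Every induced subdigraph has a kernel. -/
def KernelPerfect {V : Type} (A : V → V → Prop) : Prop := ∀ H : Set V, ∃ K, IsKernel A H K

/-- The loopless digraph on `Fin n` given by a list of arcs. -/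
def arcOf (n : ℕ) (E : List (ℕ × ℕ)) (u v : Fin n) : Prop := u ≠ v ∧ (u.val, v.val) ∈ E

end Pool.Agent.H38.Kp
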