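import Pool.Agent.H38.Kp.Red

/-!
The reduction from the quantified satisfiability problem.
-/

namespace Pool.Agent.H38.Kp

open Pool.Agent.H38.NP Pool.Agent.H36.Sig2

def sl (n : ℕ) (χ : CNF ℕ) : List (ℕ × Lit × Lit) :=
  (List.range n).map (fun i => (i, (i, false), (i, true))) ++
    χ.zipIdx.flatMap fun C => C.1.map fun l => (n + C.2, l, l)

def lay (s : List (ℕ × Lit × Lit)) (k : ℕ) : ℕ := (s.getD k (0, (0, true), (0, true))).1

def lit (s : List (ℕ × Lit × Lit)) (v : ℕ) : Lit :=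
  if v % 5 = 3 then (s.getD (v / 5) (0, (0, true), (0, true))).2.1
  else (s.getD (v / 5) (0, (0, true), (0, true))).2.2

theorem lit_eq {s k} (hk : k < s.length) (b : Bool) :
    lit s (5 * k + 3 + b.toNat) = cond b s[k].2.2 s[k].2.1 := by
  cases b
  · simp [lit, hk, Nat.add_mod, show (5 * k + 3) / 5 = k by omega]
  · simp [lit, hk, Nat.add_mod, show (5 * k + 3 + 1) / 5 = k by omega]

theorem lay_eq {s k} (hk : k < s.length) : lay s k = s[k].1 := by simp [lay, hk]

theorem sl_lt {n χ k} (hk : k < n) : ∃ h : k < (sl n χ).length,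
    (sl n χ)[k] = (k, (k, false), (k, true)) :=
  ⟨by simp [sl]; omega, by simp [sl, hk]⟩

theorem mem_sl {n χ x} : x ∈ sl n χ ↔ (∃ i < n, x = (i, (i, false), (i, true))) ∨
    ∃ j, ∃ h : j < χ.length, ∃ l ∈ χ[j], x = (n + j, l, l) := by
  simp only [sl, List.mem_append, List.mem_map, List.mem_range, List.mem_flatMap, Prod.exists,
    List.mem_zipIdx_iff_getElem?, List.getElem?_eq_some_iff, eq_comm (a := x)]
  refine or_congr Iff.rfl ⟨?_, ?_⟩
  · rintro ⟨C, j, ⟨h, e⟩, a, b, h1, h2⟩; exact ⟨j, h, a, b, e ▸ h1, h2⟩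
  · rintro ⟨j, h, a, b, h1, h2⟩; exact ⟨_, j, ⟨h, rfl⟩, a, b, h1, h2⟩

theorem lay_lt {n χ} : ∀ k < (sl n χ).length, lay (sl n χ) k < n + χ.length := fun k hk => by
  rw [lay_eq hk]
  rcases mem_sl.1 (List.getElem_mem hk) with ⟨i, hi, e⟩ | ⟨j, hj, l, -, e⟩ <;> rw [e] <;> simp <;> omega

theorem sl_iff (n : ℕ) (χ : CNF ℕ) : (∀ β : ℕ → Bool, ∃ a : ℕ → Bool, ∀ j < n + χ.length,
    ∃ k < (sl n χ).length, lay (sl n χ) k = j ∧ a (lit (sl n χ) (5 * k + 3 + (β k).toNat)).1 =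
      (lit (sl n χ) (5 * k + 3 + (β k).toNat)).2) ↔ ¬ Q2 (n, χ) := by
  simp only [Q2, not_exists, not_forall, not_not, not_and, exists_prop]
  refine forall_congr' fun β => exists_congr fun a => ⟨fun h => ⟨fun i hi => ?_, fun C hC => ?_⟩,
    fun ⟨h1, h2⟩ j hj => ?_⟩
  · obtain ⟨k, hk, e1, e2⟩ := h i (by omega)
    rw [lay_eq hk] at e1
    rw [lit_eq hk] at e2
    by_cases h : k < n
    · obtain ⟨_, e⟩ := sl_lt (χ := χ) h
      rw [e] at e1 e2
      obtain rfl : k = i := e1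
      revert e2; cases β k <;> simp
    · have : (sl n χ)[k] ∈ χ.zipIdx.flatMap fun C => C.1.map fun l => (n + C.2, l, l) := by
        simp only [sl]; rw [List.getElem_append_right (by simpa using h)]; exact List.getElem_mem _
      simp only [List.mem_flatMap, List.mem_map] at this
      obtain ⟨C, -, l, -, e⟩ := this
      rw [← e] at e1; simp at e1; omega
  · obtain ⟨j, hj, rfl⟩ := List.getElem_of_mem hC
    obtain ⟨k, hk, e1, e2⟩ := h (n + j) (by omega)
    rw [lay_eq hk] at e1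
    rw [lit_eq hk] at e2
    rcases mem_sl.1 (List.getElem_mem hk) with ⟨i, hi, e⟩ | ⟨j', hj, l, hl, e⟩ <;> rw [e] at e1 e2
    · simp at e1; omega
    · obtain rfl : j' = j := by simpa using e1
      exact ⟨l, hl, by simpa using e2⟩
  · by_cases h : j < n
    · obtain ⟨hk, e⟩ := sl_lt (χ := χ) h
      refine ⟨j, hk, by rw [lay_eq hk, e], ?_⟩
      rw [lit_eq hk, e]
      have := h1 j h
      revert this; cases β j <;> simp
    · obtain ⟨j, rfl⟩ := Nat.exists_eq_add_of_le (not_lt.1 h)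
      obtain ⟨l, hl, e⟩ := h2 _ (List.getElem_mem (show j < χ.length by omega))
      obtain ⟨k, hk, e'⟩ := List.getElem_of_mem (mem_sl.2 (.inr ⟨j, _, l, hl, rfl⟩) : (n + j, l, l) ∈ _)
      exact ⟨k, hk, by rw [lay_eq hk, e'], by rw [lit_eq hk, e']; simpa using e⟩

def inst (p : ℕ × CNF ℕ) : ℕ × List (ℕ × ℕ) :=
  (5 * (sl p.1 p.2).length + 1, edgesOf (5 * (sl p.1 p.2).length + 1)
    (att (sl p.1 p.2).length (p.1 + p.2.length) (lay (sl p.1 p.2)) (lit (sl p.1 p.2))))

theorem pt_inst : PT inst := by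
  have h1 : PT fun p : ℕ × CNF ℕ => sl p.1 p.2 := by unfold sl; fun_prop
  have h2 : PT fun p : (ℕ × List (ℕ × Lit × Lit)) × ℕ × ℕ =>
      att p.1.2.length p.1.1 (lay p.1.2) (lit p.1.2) p.2.1 p.2.2 := by
    unfold att One Two nx lay lit; fun_prop
  exact (PT.mk (f := fun p : ℕ × List (ℕ × Lit × Lit) => 5 * p.2.length + 1) (by fun_prop)
    (PT.edgesOf (n := fun p : ℕ × List (ℕ × Lit × Lit) => 5 * p.2.length + 1)
      (adj := fun p => att p.2.length p.1 (lay p.2) (lit p.2)) (by fun_prop) h2)).comp (g := fun p : ℕ × CNF ℕ => (p.1 + p.2.length, sl p.1 p.2)) (PT.mk (by fun_prop) h1)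

theorem kp_s2h : S2H (fun _ : ℕ × List (ℕ × ℕ) => True) fun p => ¬ KernelPerfect (arcOf p.1 p.2) := by
  refine q2_s2h.reduce (fun p => inst (p.1, [(0, true), (0, false)] :: p.2))
    (pt_inst.comp (by fun_prop)) fun ⟨n, χ⟩ _ => ⟨trivial, ?_⟩
  have hK : 0 < (sl n ([(0, true), (0, false)] :: χ)).length := by simp [sl]
  have e : Q2 (n, χ) ↔ Q2 (n, [(0, true), (0, false)] :: χ) := by
    refine exists_congr fun α => not_congr (exists_congr fun a => and_congr_right fun _ => ?_)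
    simp only [H36.Sig2.Mod, List.forall_mem_cons, iff_and_self]
    cases h : a 0 <;> simp [h]
  simp only [inst]
  rw [kp_nat fun u => Bool.eq_false_iff.2 fun h => irr hK u (att_iff.1 h), e, ← not_iff_not, not_not,
    ← sl_iff]
  exact ⟨complete (by simp) lay_lt, fun h β => sound hK lay_lt β h⟩

end Pool.Agent.H38.Kp
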