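import Pool.Agent.H38.Kp.Defs
import Pool.Agent.H38.NP.Clos
import Pool.Agent.H38.NP.Graphs

/-!
Recognising kernel-perfect digraphs is hard for the second level of the polynomial hierarchy.
-/

namespace Pool.Agent.H38.Kp

open Pool.Agent.H38.NP Pool.Agent.H36.Sig2

theorem kp_of_semi {V : Type} [Finite V] {A : V → V → Prop}
    (h : ∀ H : Set V, H.Nonempty → ∃ S ⊆ H, S.Nonempty ∧ (∀ u ∈ S, ∀ v ∈ S, ¬ A u v) ∧
      ∀ u ∈ S, ∀ v ∈ H, A u v → ∃ w ∈ S, A v w) : KernelPerfect A := by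
  intro H
  induction H using (wellFounded_lt (α := Set V)).induction with
  | _ H ih =>
    rcases H.eq_empty_or_nonempty with rfl | hne
    · exact ⟨∅, by simp [IsKernel]⟩
    obtain ⟨S, s1, ⟨x, hx⟩, s2, s3⟩ := h H hne
    obtain ⟨K, k1, k2, k3⟩ := ih {v ∈ H | v ∉ S ∧ ¬ ∃ w ∈ S, A v w}
      ⟨fun v hv => hv.1, fun h => (h (s1 hx)).2.1 hx⟩
    refine ⟨S ∪ K, Set.union_subset s1 fun v hv => (k1 hv).1, ?_, fun v hv hn => ?_⟩
    · rintro u (hu | hu) v (hv | hv) a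
      exacts [s2 u hu v hv a, (k1 hv).2.2 (s3 u hu v (k1 hv).1 a), (k1 hu).2.2 ⟨v, hv, a⟩,
        k2 u hu v hv a]
    · by_cases h : ∃ w ∈ S, A v w
      · exact h.imp fun w hw => ⟨.inl hw.1, hw.2⟩
      · exact (k3 v ⟨hv, fun h => hn (.inl h), h⟩ fun h => hn (.inr h)).imp
          fun w hw => ⟨.inr hw.1, hw.2⟩

theorem kp_nat {n : ℕ} {r : ℕ → ℕ → Bool} (hr : ∀ u, r u u = false) :
    KernelPerfect (arcOf n (edgesOf n r)) ↔
      KernelPerfect fun u v : Fin n => r u v = true := by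
  have : arcOf n (edgesOf n r) = fun u v : Fin n => r u v = true := by
    ext u v
    simp only [arcOf, mem_edgesOf, u.2, v.2, true_and, and_iff_right_iff_imp]
    rintro h rfl; simp [hr] at h
  rw [this]

def One (K u v : ℕ) : Prop :=
  (u % 5 ≤ 1 ∧ v = u + 1) ∨ (u % 5 = 2 ∧ 3 ≤ v % 5 ∧ v / 5 = u / 5) ∨
    (3 ≤ u % 5 ∧ v = 5 * (u / 5 + 1)) ∨ (u = 5 * K ∧ v = 0)

def nx (m j : ℕ) : ℕ := if j + 1 = m then 0 else j + 1

def Two (m : ℕ) (lay : ℕ → ℕ) (lit : ℕ → Lit) (u v : ℕ) : Prop :=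
  (u % 5 = 0 ∧ 2 ≤ v % 5 ∧ v / 5 = u / 5) ∨ (u % 5 = 1 ∧ 3 ≤ v % 5 ∧ v / 5 = u / 5) ∨
    ((u % 5 = 1 ∨ u % 5 = 2) ∧ v = 5 * (u / 5 + 1)) ∨
    (u % 5 = 2 ∧ 3 ≤ v % 5 ∧ nx m (lay (v / 5)) = lay (u / 5)) ∨
    (3 ≤ u % 5 ∧ 3 ≤ v % 5 ∧ (lit u).1 = (lit v).1 ∧ (lit u).2 ≠ (lit v).2)

instance (K u v) : Decidable (One K u v) := by unfold One; infer_instance
instance (m lay lit u v) : Decidable (Two m lay lit u v) := by unfold Two; infer_instance

def At (K m : ℕ) (lay : ℕ → ℕ) (lit : ℕ → Lit) (u v : ℕ) : Prop :=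
  One K u v ∨ Two m lay lit u v ∨ Two m lay lit v u

def att (K m : ℕ) (lay : ℕ → ℕ) (lit : ℕ → Lit) (u v : ℕ) : Bool :=
  decide (One K v u) || (decide (Two m lay lit v u) || decide (Two m lay lit u v))

theorem att_iff {K m lay lit u v} : att K m lay lit u v = true ↔ At K m lay lit v u := by
  simp [att, At]

variable {K m : ℕ} {lay : ℕ → ℕ} {lit : ℕ → Lit}

theorem a0 {w k} (h : At K m lay lit w (5 * k)) : (0 < k ∧ 5 * k ≤ w + 4 ∧ w < 5 * k) ∨
    (k = 0 ∧ w = 5 * K) ∨ (5 * k + 2 ≤ w ∧ w ≤ 5 * k + 4) := by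
  rcases h with (h | h | h | h) | (h | h | h | h | h) | (h | h | h | h | h) <;> omega

theorem a1 {w k} (h : At K m lay lit w (5 * k + 1)) :
    w = 5 * k ∨ (5 * k + 3 ≤ w ∧ w ≤ 5 * k + 4) ∨ w = 5 * k + 5 := by
  rcases h with (h | h | h | h) | (h | h | h | h | h) | (h | h | h | h | h) <;> omega

theorem a2 {w k} (h : At K m lay lit w (5 * k + 2)) : w = 5 * k ∨ w = 5 * k + 1 ∨ w = 5 * k + 5 ∨
    (3 ≤ w % 5 ∧ nx m (lay (w / 5)) = lay k) := by
  rcases h with (h | h | h | h) | (h | h | h | h | h) | (h | h | h | h | h)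
  any_goals omega
  rw [show (5 * k + 2) / 5 = k by omega] at h; omega

theorem a3 {w v} (hv : 3 ≤ v % 5) (h : At K m lay lit w v) :
    w = 5 * (v / 5) ∨ w = 5 * (v / 5) + 1 ∨ 2 ≤ w % 5 := by
  rcases h with (h | h | h | h) | (h | h | h | h | h) | (h | h | h | h | h) <;> omega

theorem b0 {u v} (h : u % 5 = 0 ∧ 1 ≤ v % 5 ∧ v / 5 = u / 5) : At K m lay lit u v := by
  by_cases e : v % 5 = 1
  · exact .inl (.inl (by omega))
  · exact .inr (.inl (.inl (by omega)))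

theorem b1 {u v} (h : u % 5 = 1 ∧ 3 ≤ v % 5 ∧ v / 5 = u / 5) : At K m lay lit u v :=
  .inr (.inl (.inr (.inl h)))

theorem b2 {u v} (h : u % 5 = 2 ∧ 3 ≤ v % 5 ∧ v / 5 = u / 5) : At K m lay lit u v :=
  .inl (.inr (.inl h))

theorem b3 {u v} (h : 1 ≤ u % 5 ∧ v = 5 * (u / 5 + 1)) : At K m lay lit u v := by
  by_cases e : 3 ≤ u % 5
  · exact .inl (.inr (.inr (.inl (by omega))))
  · exact .inr (.inl (.inr (.inr (.inl (by omega)))))

theorem irr (hK : 0 < K) (u) : ¬ At K m lay lit u u := by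
  rintro ((h | h | h | h) | (h | h | h | h | h) | (h | h | h | h | h))
  any_goals omega
  all_goals simp at h

theorem sound (hK : 0 < K) (hl : ∀ k < K, lay k < m) (β : ℕ → Bool)
    (h : KernelPerfect fun u v : Fin (5 * K + 1) => att K m lay lit u v = true) :
    ∃ a : ℕ → Bool, ∀ j < m, ∃ k < K, lay k = j ∧
      a (lit (5 * k + 3 + (β k).toNat)).1 = (lit (5 * k + 3 + (β k).toNat)).2 := by
  classical
  obtain ⟨S', s1, s2, s3⟩ := h {v | 3 ≤ v.val % 5 → v.val = 5 * (v.val / 5) + 3 + (β (v.val / 5)).toNat}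
  let S : Set ℕ := Fin.val '' S'
  have b : ∀ k, (β k).toNat < 2 := fun k => Bool.toNat_lt _
  have t0 : ∀ u ∈ S, u ≤ 5 * K := by rintro _ ⟨u, -, rfl⟩; omega
  have t1 : ∀ v ∈ S, 3 ≤ v % 5 → v = 5 * (v / 5) + 3 + (β (v / 5)).toNat := by
    rintro _ ⟨u, hu, rfl⟩; exact s1 hu
  have t2 : ∀ u ∈ S, ∀ v ∈ S, ¬ At K m lay lit u v := by
    rintro _ ⟨u, hu, rfl⟩ _ ⟨v, hv, rfl⟩ h; exact s2 v hv u hu (att_iff.2 h)
  have t3 : ∀ v ≤ 5 * K, (3 ≤ v % 5 → v = 5 * (v / 5) + 3 + (β (v / 5)).toNat) → v ∉ S →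
      ∃ w ∈ S, At K m lay lit w v := fun v hv h1 h2 => by
    obtain ⟨w, hw, h⟩ := s3 ⟨v, by omega⟩ h1 fun h => h2 ⟨_, h, rfl⟩
    exact ⟨w, ⟨w, hw, rfl⟩, att_iff.1 h⟩
  have df : ∀ u ∈ S, ∀ v ≤ 5 * K, (3 ≤ v % 5 → v = 5 * (v / 5) + 3 + (β (v / 5)).toNat) →
      One K v u → ∃ w ∈ S, At K m lay lit w v := fun u hu v hv h1 h2 =>
    t3 v hv h1 fun h => t2 v h u hu (.inl h2)
  clear s1 s2 s3
  clear_value S
  have np : ∀ u ∈ S, u % 5 ≠ 2 := fun u hu h => by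
    obtain ⟨w, hw, h1⟩ := df u hu (5 * (u / 5) + 1) (by have := t0 u hu; omega) (by omega)
      (.inl (by omega))
    rcases a1 h1 with e | e | e
    exacts [t2 w hw u hu (b0 (by omega)), t2 u hu w hw (b2 (by omega)), t2 u hu w hw (b3 (by omega))]
  have ry : ∃ y ∈ S, 3 ≤ y % 5 := by
    by_contra hy
    have ny : ∀ y ∈ S, y % 5 ≤ 1 := fun y h => by
      have := np y h
      by_contra h'; exact hy ⟨y, h, by omega⟩
    have g1 : ∀ k, 5 * k + 1 ∈ S → (if k = 0 then 5 * K else 5 * k - 4) ∈ S := fun k hu => by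
      obtain ⟨w, hw, h1⟩ := df _ hu (5 * k) (by have := t0 _ hu; omega) (by omega) (.inl (by omega))
      have := ny w hw
      have := a0 h1
      rwa [show (if k = 0 then 5 * K else 5 * k - 4) = w by split_ifs <;> omega]
    have g2 : ∀ k, 5 * (k + 1) ∈ S → 5 * k ∈ S := fun k hu => by
      have := b k
      obtain ⟨w, hw, h1⟩ := df _ hu (5 * k + 3 + (β k).toNat) (by have := t0 _ hu; omega)
        (by rw [show (5 * k + 3 + (β k).toNat) / 5 = k by omega]; omega)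
        (.inr (.inr (.inl (by omega))))
      have := ny w hw
      rcases a3 (by omega) h1 with e | e | e
      · rwa [show 5 * k = w by omega]
      · exact absurd (b3 (by omega)) (t2 w hw _ hu)
      · omega
    have g3 : 0 ∈ S → 5 * (K - 1) + 1 ∈ S := fun hu => by
      obtain ⟨w, hw, h1⟩ := df _ hu (5 * K) le_rfl (by omega) (.inr (.inr (.inr ⟨rfl, rfl⟩)))
      have := ny w hw; have := t0 _ hw
      have := a0 h1
      rwa [show 5 * (K - 1) + 1 = w by omega]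
    have c0 : ∀ k, 5 * k ∈ S → 0 ∈ S := fun k => by
      induction k with
      | zero => exact id
      | succ k ih => exact fun h => ih (g2 k h)
    have r0 : ∀ k, 5 * k + 1 ∈ S → 1 ∈ S := fun k => by
      induction k with
      | zero => exact id
      | succ k ih => exact fun h => ih (by
        have := g1 _ h
        rwa [if_neg (by omega), show 5 * (k + 1) - 4 = 5 * k + 1 by omega] at this)
    have h0 : 0 ∈ S := by
      by_contra h
      obtain ⟨w, hw, -⟩ := t3 0 (by omega) (by omega) h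
      have := ny w hw
      by_cases e : w % 5 = 0
      · exact h (c0 (w / 5) (by rwa [show 5 * (w / 5) = w by omega]))
      · exact h (c0 K (by simpa using g1 0 (r0 (w / 5) (by rwa [show 5 * (w / 5) + 1 = w by omega]))))
    exact t2 0 h0 1 (r0 _ (g3 h0)) (b0 (by omega))
  have pv : ∀ j, (∃ y ∈ S, 3 ≤ y % 5 ∧ lay (y / 5) = j) →
      ∃ i < m, nx m i = j ∧ ∃ y ∈ S, 3 ≤ y % 5 ∧ lay (y / 5) = i := by
    rintro j ⟨y, hy, h, rfl⟩
    have := t0 y hy
    obtain ⟨w, hw, h1⟩ := df y hy (5 * (y / 5) + 2) (by omega) (by omega) (.inr (.inl (by omega)))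
    have := t0 w hw
    rcases a2 h1 with e | e | e | e
    · exact absurd (b0 (by omega)) (t2 w hw y hy)
    · exact absurd (b1 (by omega)) (t2 w hw y hy)
    · exact absurd (b3 (by omega)) (t2 y hy w hw)
    · exact ⟨_, hl _ (by omega), e.2, w, hw, e.1, rfl⟩
  have dn : ∀ j, (∃ y ∈ S, 3 ≤ y % 5 ∧ lay (y / 5) = j) → ∀ i ≤ j,
      ∃ y ∈ S, 3 ≤ y % 5 ∧ lay (y / 5) = i := fun j h i hi => by
    induction hi using Nat.decreasingInduction with
    | self => exact h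
    | of_succ i _ ih =>
      obtain ⟨i', -, e, h⟩ := pv _ ih
      rwa [show i' = i by unfold nx at e; split_ifs at e <;> omega] at h
  obtain ⟨y, hy, h⟩ := ry
  obtain ⟨i, hi, e, h⟩ := pv 0 (dn _ ⟨y, hy, h, rfl⟩ 0 (by omega))
  refine ⟨fun x => decide (∃ y ∈ S, 3 ≤ y % 5 ∧ lit y = (x, true)), fun j hj => ?_⟩
  obtain ⟨y, hy, h1, rfl⟩ := dn i h j (by unfold nx at e; split_ifs at e <;> omega)
  have := t0 y hy
  refine ⟨y / 5, by omega, rfl, ?_⟩
  rw [← t1 y hy h1]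
  cases e : (lit y).2
  · simp only [decide_eq_false_iff_not]
    rintro ⟨z, hz, h2, e'⟩
    exact t2 y hy z hz (.inr (.inl (by simp [Two, h1, h2, e, e'])))
  · exact decide_eq_true ⟨y, hy, h1, by rw [← e]⟩

theorem complete (hm : 0 < m) (hl : ∀ k < K, lay k < m) (h : ∀ β : ℕ → Bool, ∃ a : ℕ → Bool, ∀ j < m,
      ∃ k < K, lay k = j ∧ a (lit (5 * k + 3 + (β k).toNat)).1 = (lit (5 * k + 3 + (β k).toNat)).2) :
    KernelPerfect fun u v : Fin (5 * K + 1) => att K m lay lit u v = true := by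
  classical
  have hK : 0 < K := by obtain ⟨a, ha⟩ := h fun _ => true; obtain ⟨k, hk, -⟩ := ha 0 hm; omega
  refine kp_of_semi fun H hH => ?_
  simp only [att_iff]
  by_cases hs : ∃ v ∈ H, ∀ u ∈ H, ¬ One K u.val v.val
  · obtain ⟨v, hv, hs⟩ := hs
    refine ⟨{v}, by simpa, by simp, ?_, ?_⟩
    · rintro _ rfl _ rfl; exact irr hK _
    · rintro _ rfl u hu (h | h | h)
      exacts [absurd h (hs u hu), ⟨_, rfl, .inr (.inr h)⟩, ⟨_, rfl, .inr (.inl h)⟩]
  push Not at hs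
  let P : ℕ → Prop := fun v => ∃ u ∈ H, u.val = v
  have pr : ∀ v, P v → ∃ u ≤ 5 * K, P u ∧ One K u v := by
    rintro _ ⟨v, hv, rfl⟩
    obtain ⟨u, hu, h⟩ := hs v hv
    exact ⟨u, by omega, ⟨u, hu, rfl⟩, h⟩
  have p0 : ∀ v, P v → P 0 := fun v => by
    induction v using Nat.strong_induction_on with
    | _ v ih =>
      intro hv
      obtain ⟨u, -, h1, h2⟩ := pr v hv
      by_cases e : v = 0
      · exact e ▸ hv
      · exact ih u (by unfold One at h2; omega) h1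
  have st : ∀ k, P (5 * (k + 1)) → (∃ b : Bool, P (5 * k + 3 + b.toNat)) ∧ P (5 * k) := fun k h => by
    obtain ⟨u, -, h1, h2⟩ := pr _ h
    obtain ⟨u1, -, h3, h4⟩ := pr _ h1
    obtain ⟨u2, -, h5, h6⟩ := pr _ h3
    obtain ⟨u3, -, h7, h8⟩ := pr _ h5
    unfold One at h2 h4 h6 h8
    refine ⟨?_, by rwa [show 5 * k = u3 by omega]⟩
    by_cases e : u % 5 = 3
    · exact ⟨false, by rwa [show 5 * k + 3 + false.toNat = u by simp; omega]⟩
    · exact ⟨true, by rwa [show 5 * k + 3 + true.toNat = u by simp; omega]⟩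
  have al : ∀ k ≤ K, P (5 * k) := fun k hk => by
    induction hk using Nat.decreasingInduction with
    | self =>
      obtain ⟨v, hv⟩ := hH
      obtain ⟨u, -, h1, h2⟩ := pr _ (p0 _ ⟨v, hv, rfl⟩)
      rwa [show 5 * K = u by unfold One at h2; omega]
    | of_succ k _ ih => exact (st k ih).2
  have : ∀ k, ∃ b : Bool, k < K → P (5 * k + 3 + b.toNat) := fun k => by
    by_cases hk : k < K
    · exact (st k (al _ hk)).1.imp fun b h _ => h
    · exact ⟨true, fun h => absurd h hk⟩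
  choose β hβ using this
  obtain ⟨a, ha⟩ := h β
  have ex : ∀ j < m, ∃ y ∈ H, (3 ≤ y.val % 5 ∧ a (lit y).1 = (lit y).2) ∧ lay (y.val / 5) = j :=
    fun j hj => by
      obtain ⟨k, hk, h1, h2⟩ := ha j hj
      obtain ⟨y, hy, e⟩ := hβ k hk
      have := Bool.toNat_lt (β k)
      exact ⟨y, hy, ⟨by omega, e ▸ h2⟩, by rwa [show y.val / 5 = k by omega]⟩
  refine ⟨{y ∈ H | 3 ≤ y.val % 5 ∧ a (lit y).1 = (lit y).2}, fun y h => h.1,
    (ex 0 hm).imp fun y h => ⟨h.1, h.2.1⟩, ?_, ?_⟩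
  · rintro u ⟨-, u1, u2⟩ v ⟨-, v1, v2⟩ h
    have : ¬ ((lit u).1 = (lit v).1 ∧ (lit u).2 ≠ (lit v).2) := fun h => h.2 (by rw [← u2, ← v2, h.1])
    have : ¬ ((lit v).1 = (lit u).1 ∧ (lit v).2 ≠ (lit u).2) := fun h => h.2 (by rw [← u2, ← v2, h.1])
    rcases h with (h | h | h | h) | (h | h | h | h | h) | (h | h | h | h | h)
    any_goals omega
    all_goals tauto
  · rintro u ⟨hu, u1, u2⟩ v hv (h | h | h)
    · have := hl (u / 5) (by omega)
      obtain ⟨y, hy, h1, h2⟩ := ex (if lay (u / 5) = 0 then m - 1 else lay (u / 5) - 1)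
        (by split_ifs <;> omega)
      refine ⟨y, ⟨hy, h1⟩, .inr (.inr (.inr (.inr (.inr (.inl ⟨?_, h1.1, ?_⟩)))))⟩
      · unfold One at h; omega
      · rw [h2, show v.val / 5 = u / 5 by unfold One at h; omega]; unfold nx; split_ifs <;> omega
    · exact ⟨u, ⟨hu, u1, u2⟩, .inr (.inr h)⟩
    · exact ⟨u, ⟨hu, u1, u2⟩, .inr (.inl h)⟩

end Pool.Agent.H38.Kp
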